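import Pool.Agent.helper57.DH.SpecL

/-!
# Project d2: row LOA: piecewise affine functions composed with near-identity maps
-/

set_option autoImplicit false

open Filter Topology MeasureTheory
open scoped commutatorElement

namespace Pool.Agent.helper90.DH

open Pool.Agent.helper64.D2

theorem LOA_ci {s : ℕ} {k : ℤ} {x : ℝ} (hx : x ∈ cell s k) : ci s x = k := by
  have h2 : (0 : ℝ) < 2 ^ s := by positivity
  obtain ⟨h3, h4⟩ := hx
  unfold ci
  rw [Int.floor_eq_iff]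
  rw [div_le_iff₀ h2] at h3
  rw [lt_div_iff₀ h2] at h4
  constructor <;> linarith

theorem LOA_mem (s : ℕ) (x : ℝ) : x ∈ cell s (ci s x) := by
  have h2 : (0 : ℝ) < 2 ^ s := by positivity
  have h3 := Int.floor_le ((2 : ℝ) ^ s * x)
  have h4 := Int.lt_floor_add_one ((2 : ℝ) ^ s * x)
  constructor
  · rw [div_le_iff₀ h2]
    unfold ci
    linarith
  · rw [lt_div_iff₀ h2]
    unfold ci
    linarith

theorem LOA_left (s : ℕ) (k : ℤ) : (k : ℝ) / 2 ^ s ∈ cell s k := by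
  have h2 : (0 : ℝ) < 2 ^ s := by positivity
  refine ⟨le_refl _, ?_⟩
  rw [div_lt_div_iff_of_pos_right h2]
  linarith

/-- the value at `1` of a piecewise affine function which vanishes outside `[0,1]`. -/
theorem LOA_one {p : ℕ} {g : ℝ → ℝ} (hP : PA p g) (h0 : ∀ x, x ∉ Set.Icc (0 : ℝ) 1 → g x = 0) : g 1 = 0 := by
  have h2 : (0 : ℝ) < 2 ^ p := by positivity
  obtain ⟨a, b, hab⟩ := hP (2 ^ p)
  have hcell : ∀ x : ℝ, 1 ≤ x → x < 1 + 1 / 2 ^ p → x ∈ cell p (2 ^ p) := by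
    intro x h3 h4
    constructor
    · push_cast
      rw [div_self h2.ne']
      exact h3
    · push_cast
      rw [add_div, div_self h2.ne']
      exact h4
  have hq : (0 : ℝ) < 1 / 2 ^ p := by positivity
  have e1 := hab 1 (hcell 1 le_rfl (by linarith))
  have e2 := hab (1 + 1 / 2 ^ p / 2) (hcell _ (by linarith) (by linarith))
  have e3 := hab (1 + 1 / 2 ^ p / 4) (hcell _ (by linarith) (by linarith))
  rw [h0 (1 + 1 / 2 ^ p / 2) (by rintro ⟨_, h⟩; linarith)] at e2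
  rw [h0 (1 + 1 / 2 ^ p / 4) (by rintro ⟨_, h⟩; linarith)] at e3
  have h5 : b * (1 / 2 ^ p) = 0 := by linarith
  have h6 : b = 0 := by
    rcases mul_eq_zero.1 h5 with h | h
    · exact h
    · exact absurd h hq.ne'
  rw [e1]
  rw [h6] at e2 ⊢
  linarith

open Classical in
/-- the comparison function. -/
noncomputable def LOA_l (c : DD) (g : ℝ → ℝ) (p r : ℕ) (x : ℝ) : ℝ :=
  if ∀ z ∈ cell r (ci r x), ci p (ev c z) = ci p (ev c ((ci r x : ℝ) / 2 ^ r)) then g (ev c ((ci r x : ℝ) / 2 ^ r)) else 0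

theorem LOA_meas (s : ℕ) (ρ : ℝ) : MeasurableSet (Gr s ρ) := by
  have : Gr s ρ = ⋃ k : ℤ, {x : ℝ | |x - (k : ℝ) / 2 ^ s| ≤ ρ} := by
    ext x
    simp [Gr]
  rw [this]
  refine MeasurableSet.iUnion fun k => ?_
  exact (isClosed_le (by fun_prop) continuous_const).measurableSet

theorem LOA (hLBM : LBM_stmt) (hLEP : LEP_stmt) (hLEN : LEN_stmt) (hLCV : LCV_stmt) : LOA_stmt := by
  refine ⟨600, by norm_num, ?_⟩
  intro c g p r hc hP hg hpr
  obtain ⟨b1, b2, b3, -, b5, -⟩ := hLBM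
  obtain ⟨n1, n2, n3, -⟩ := hLEN p g hP
  obtain ⟨n4, -, n5, n6⟩ := n3 hg
  obtain ⟨v1, -, v3, v4, -, -⟩ := hLCV
  have v1' := v1 c hc
  have h2r : (0 : ℝ) < 2 ^ r := by positivity
  have h2p : (0 : ℝ) < 2 ^ p := by positivity
  have hg0 : ∀ x, x ∉ Set.Icc (0 : ℝ) 1 → g x = 0 := hg.2.2
  have hg1 : g 1 = 0 := LOA_one hP hg0
  have hg0' : ∀ x, x ∉ Set.Ico (0 : ℝ) 1 → g x = 0 := by
    intro x hx
    by_cases h : x = 1
    · rw [h]; exact hg1
    · refine hg0 x fun h3 => hx ⟨h3.1, lt_of_le_of_ne h3.2 h⟩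
  set h : ℝ → ℝ := fun x => g (ev c x) with hh
  have hBh : BM h := b5 c g hg
  set l : ℝ → ℝ := LOA_l c g p r with hl
  -- `l` is constant on the cells
  have hlc : ∀ x z, ci r x = ci r z → l x = l z := by
    intro x z hxz
    rw [hl]
    unfold LOA_l
    rw [hxz]
  have hlP : PA r l := by
    intro k
    refine ⟨l ((k : ℝ) / 2 ^ r), 0, fun x hx => ?_⟩
    rw [zero_mul, add_zero]
    exact hlc _ _ (by rw [LOA_ci hx, LOA_ci (LOA_left r k)])
  have hout : ∀ x : ℝ, x ∉ Set.Ico (0 : ℝ) 1 → g (ev c x) = 0 := by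
    intro x hx
    rw [ev_out c x (fun h3 => hx ⟨h3.1.le, h3.2⟩)]
    exact hg0' x hx
  have hlout : ∀ x, x ∉ Set.Icc (0 : ℝ) 1 → l x = 0 := by
    intro x hx
    have hkey : g (ev c ((ci r x : ℝ) / 2 ^ r)) = 0 := by
      apply hout
      rintro ⟨h3, h4⟩
      apply hx
      have h5 := LOA_mem r x
      refine ⟨h3.trans h5.1, ?_⟩
      have h6 : ci r x < 2 ^ r := by
        rw [div_lt_one h2r] at h4
        exact_mod_cast h4
      have h7 : (ci r x : ℝ) + 1 ≤ 2 ^ r := by exact_mod_cast h6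
      have h8 : ((ci r x : ℝ) + 1) / 2 ^ r ≤ 1 := by
        rw [div_le_one h2r]
        exact h7
      linarith [h5.2]
    rw [hl]
    unfold LOA_l
    split_ifs
    · exact hkey
    · rfl
  have hBl : BM l := b3 r l hlP hlout
  -- the bound
  set ρ : ℝ := 51 / 50 * (1 / 2 ^ r) with hρ
  have hρ0 : 0 ≤ ρ := by positivity
  set G : ℝ → ℝ := Bg p g with hG
  set F : ℝ → ℝ := fun z => (2 * 2 ^ p * ρ) ^ 2 * (G z * G z) + (Gr p ρ).indicator (fun z => G z ^ 2) z with hF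
  have hpt : ∀ x, (h x - l x) ^ 2 ≤ F (ev c x) := by
    intro x
    have hx := LOA_mem r x
    have hlen : ∀ z ∈ cell r (ci r x), ∀ z' ∈ cell r (ci r x), z' ≤ z → ev c z' ≤ ev c z ∧ ev c z - ev c z' ≤ ρ := by
      intro z hz z' hz' hle
      refine ⟨ev_mono c hle, (v1' z' z hle).2.trans ?_⟩
      have h3 : z - z' ≤ 1 / 2 ^ r := by
        have h4 : ((ci r x : ℝ) + 1) / 2 ^ r = (ci r x : ℝ) / 2 ^ r + 1 / 2 ^ r := add_div _ _ _
        linarith [hz.2, hz'.1]
      rw [hρ]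
      linarith
    have hlm := LOA_left r (ci r x)
    have hind : 0 ≤ (Gr p ρ).indicator (fun z => G z ^ 2) (ev c x) := Set.indicator_nonneg (fun _ _ => sq_nonneg _) _
    have hsq : 0 ≤ (2 * 2 ^ p * ρ) ^ 2 * (G (ev c x) * G (ev c x)) := mul_nonneg (sq_nonneg _) (mul_self_nonneg _)
    by_cases hgood : ∀ z ∈ cell r (ci r x), ci p (ev c z) = ci p (ev c ((ci r x : ℝ) / 2 ^ r))
    · have e1 : l x = g (ev c ((ci r x : ℝ) / 2 ^ r)) := by
        rw [hl]
        unfold LOA_l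
        rw [if_pos hgood]
      have e2 := n2 (ev c x) (ev c ((ci r x : ℝ) / 2 ^ r)) (hgood x hx)
      obtain ⟨e3, e4⟩ := hlen x hx _ hlm hx.1
      have hG0 : 0 ≤ Bg p g (ev c x) := by unfold Bg; positivity
      have e5 : |h x - l x| ≤ (2 * 2 ^ p * ρ) * G (ev c x) := by
        rw [e1]
        refine e2.trans ?_
        rw [abs_of_nonneg (by linarith)]
        have := mul_le_mul_of_nonneg_left e4 (by positivity : 0 ≤ 2 * 2 ^ p * Bg p g (ev c x))
        rw [hG]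
        linarith
      have e6 : (h x - l x) ^ 2 ≤ ((2 * 2 ^ p * ρ) * G (ev c x)) ^ 2 := by
        rw [← sq_abs]
        exact pow_le_pow_left₀ (abs_nonneg _) e5 2
      have e7 : ((2 * 2 ^ p * ρ) * G (ev c x)) ^ 2 = (2 * 2 ^ p * ρ) ^ 2 * (G (ev c x) * G (ev c x)) := by ring
      rw [hF]
      change (h x - l x) ^ 2 ≤ (2 * 2 ^ p * ρ) ^ 2 * (G (ev c x) * G (ev c x)) + (Gr p ρ).indicator (fun z => G z ^ 2) (ev c x)
      linarith
    · have e1 : l x = 0 := by
        rw [hl]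
        unfold LOA_l
        rw [if_neg hgood]
      push Not at hgood
      obtain ⟨z, hz, hne⟩ := hgood
      -- a grid point in the image of the cell
      have hle : ci p (ev c ((ci r x : ℝ) / 2 ^ r)) ≤ ci p (ev c z) := by
        unfold ci
        exact Int.floor_le_floor (mul_le_mul_of_nonneg_left (hlen z hz _ hlm hz.1).1 h2p.le)
      have hlt : ci p (ev c ((ci r x : ℝ) / 2 ^ r)) + 1 ≤ ci p (ev c z) := by omega
      have g1 : ev c ((ci r x : ℝ) / 2 ^ r) < (ci p (ev c z) : ℝ) / 2 ^ p := by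
        have h3 := (LOA_mem p (ev c ((ci r x : ℝ) / 2 ^ r))).2
        have h4 : ((ci p (ev c ((ci r x : ℝ) / 2 ^ r)) : ℝ) + 1) / 2 ^ p ≤ (ci p (ev c z) : ℝ) / 2 ^ p := by
          refine div_le_div_of_nonneg_right ?_ h2p.le
          exact_mod_cast hlt
        linarith
      have g2 : (ci p (ev c z) : ℝ) / 2 ^ p ≤ ev c z := (LOA_mem p (ev c z)).1
      have hmem : ev c x ∈ Gr p ρ := by
        refine ⟨ci p (ev c z), ?_⟩
        rw [abs_le]
        obtain ⟨e3, e4⟩ := hlen x hx _ hlm hx.1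
        constructor
        · rcases le_total x z with h5 | h5
          · have := (hlen z hz x hx h5).2
            have h6 := (hlen z hz _ hlm hz.1).2
            linarith
          · have := (hlen x hx z hz h5).1
            linarith
        · linarith
      have e2 : |h x| ≤ G (ev c x) := n1 (ev c x)
      have e3 : (h x) ^ 2 ≤ G (ev c x) ^ 2 := by
        rw [← sq_abs]
        exact pow_le_pow_left₀ (abs_nonneg _) e2 2
      rw [hF]
      change (h x - l x) ^ 2 ≤ (2 * 2 ^ p * ρ) ^ 2 * (G (ev c x) * G (ev c x)) + (Gr p ρ).indicator (fun z => G z ^ 2) (ev c x)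
      rw [e1, sub_zero, Set.indicator_of_mem hmem]
      linarith
  -- integrability of `F`
  have hBG : BM G := n4
  have hBGG : BM (fun z => G z * G z) := (b1 G G hBG hBG).2.2
  have hBI : BM (fun z => (Gr p ρ).indicator (fun z => G z ^ 2) z) := by
    obtain ⟨m1, ⟨B, m2⟩, m3⟩ := hBGG
    refine ⟨?_, ⟨B, fun x => ?_⟩, fun x hx => ?_⟩
    · refine Measurable.indicator ?_ (LOA_meas p ρ)
      have : (fun z => G z ^ 2) = fun z => G z * G z := by
        funext z
        ring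
      rw [this]
      exact m1
    · change |(Gr p ρ).indicator (fun z => G z ^ 2) x| ≤ B
      by_cases hx : x ∈ Gr p ρ
      · rw [Set.indicator_of_mem hx]
        have : |G x * G x| ≤ B := m2 x
        rwa [← sq] at this
      · rw [Set.indicator_of_notMem hx, abs_zero]
        exact (abs_nonneg _).trans (m2 x)
    · change (Gr p ρ).indicator (fun z => G z ^ 2) x = 0
      by_cases hx' : x ∈ Gr p ρ
      · rw [Set.indicator_of_mem hx']
        have : G x * G x = 0 := m3 x hx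
        rwa [← sq] at this
      · rw [Set.indicator_of_notMem hx']
  have hBF1 := (b2 ((2 * 2 ^ p * ρ) ^ 2) _ hBGG).1
  have hBF : BM F := (b1 _ _ hBF1 hBI).1
  have hFi : Integrable F := (b2 1 F hBF).2.2
  have hFci : Integrable (fun x => F (ev c x)) := (b2 1 _ (b5 c F hBF)).2.2
  have hF0 : ∀ z, 0 ≤ F z := by
    intro z
    rw [hF]
    have hind : 0 ≤ (Gr p ρ).indicator (fun z => G z ^ 2) z := Set.indicator_nonneg (fun _ _ => sq_nonneg _) _
    have hsq : 0 ≤ (2 * 2 ^ p * ρ) ^ 2 * (G z * G z) := mul_nonneg (sq_nonneg _) (mul_self_nonneg _)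
    change 0 ≤ (2 * 2 ^ p * ρ) ^ 2 * (G z * G z) + (Gr p ρ).indicator (fun z => G z ^ 2) z
    linarith
  have s1 : nsq (fun x => h x - Es r h x) ≤ nsq (fun x => h x - l x) := hLEP.2.2 r h l hBh hBl hlP
  have s2 : nsq (fun x => h x - l x) ≤ ∫ x, F (ev c x) := by
    unfold nsq
    exact integral_mono_of_nonneg (Eventually.of_forall fun x => sq_nonneg _) hFci (Eventually.of_forall hpt)
  have s3 : ∫ x, F (ev c x) ≤ ∫ z, F z * (51 / 49) := by
    rw [v4 c F hc]
    refine integral_mono_of_nonneg (Eventually.of_forall fun z => ?_) (hFi.mul_const _) (Eventually.of_forall fun z => ?_)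
    · exact mul_nonneg (hF0 z) (by linarith [((v3 c hc).1 z).1])
    · exact mul_le_mul_of_nonneg_left ((v3 c hc).1 z).2 (hF0 z)
  have s4 : ∫ z, F z = (2 * 2 ^ p * ρ) ^ 2 * nsq G + ∫ z, (Gr p ρ).indicator (fun z => G z ^ 2) z := by
    have e1 : ∫ z, F z = (∫ z, (2 * 2 ^ p * ρ) ^ 2 * (G z * G z)) + ∫ z, (Gr p ρ).indicator (fun z => G z ^ 2) z :=
      integral_add ((b2 1 _ hBF1).2.2) ((b2 1 _ hBI).2.2)
    rw [e1, integral_const_mul]
    unfold nsq
    congr 3
    funext z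
    ring
  have hn0 : 0 ≤ nsq g := integral_nonneg fun x => sq_nonneg _
  have s5 := n6 ρ hρ0
  -- arithmetic
  obtain ⟨d, rfl⟩ : ∃ d, r = p + d := ⟨r - p, by omega⟩
  rw [Nat.add_sub_cancel_left]
  have h2d : (0 : ℝ) < 2 ^ d := by positivity
  have hd1 : (1 : ℝ) ≤ 2 ^ d := one_le_pow₀ (by norm_num)
  have hρp : 2 ^ p * ρ = 51 / 50 * (1 / 2 ^ d) := by
    rw [hρ, pow_add]
    field_simp
  have hd2 : (1 / 2 ^ d : ℝ) ≤ 1 := by
    rw [div_le_one h2d]
    exact hd1
  have hd0 : (0 : ℝ) < 1 / 2 ^ d := by positivity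
  have e1 : (2 * 2 ^ p * ρ) ^ 2 = (51 / 25 * (1 / 2 ^ d)) ^ 2 := by
    rw [mul_assoc, hρp]
    ring
  have e2 : (2 * 2 ^ p * ρ) ^ 2 ≤ 5 * (1 / 2 ^ d) := by
    rw [e1]
    nlinarith
  have e3 : 72 * ρ * 2 ^ p * nsq g = 72 * (51 / 50 * (1 / 2 ^ d)) * nsq g := by
    rw [← hρp]
    ring
  have e4 : (2 * 2 ^ p * ρ) ^ 2 * nsq G ≤ 5 * (1 / 2 ^ d) * (36 * nsq g) :=
    mul_le_mul e2 n5 (integral_nonneg fun x => sq_nonneg _) (by positivity)
  have e5 : ∫ z, F z * (51 / 49) = (∫ z, F z) * (51 / 49) := integral_mul_const _ _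
  have e6 : 600 / 2 ^ d * nsq g = 600 * ((1 / 2 ^ d) * nsq g) := by ring
  have e7 : 0 ≤ (1 / 2 ^ d : ℝ) * nsq g := by positivity
  change nsq (fun x => h x - Es (p + d) h x) ≤ 600 / 2 ^ d * nsq g
  rw [e6]
  have e8 : ∫ z, (Gr p ρ).indicator (fun z => G z ^ 2) z ≤ 72 * ρ * 2 ^ p * nsq g := s5
  rw [e3] at e8
  nlinarith [s1, s2, s3, s4, e4, e5, e7, e8]

end Pool.Agent.helper90.DH
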